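import Pool.Agent.helper10.K3B.Def

/-!
# K3B: the fibres are smooth, `-1` acts freely, the canonical forms have no common zero

`H = X₀ X₂ W₁ - μ X₁ W₀ W₂`; `hW k = ∂H/∂W_k`, `hX k = ∂H/∂X_k`.
* `Cone.key`: at every point there is `k` with `Y_k ≠ 0` and `(∂H/∂W_k, ∂H/∂X_k) ≠ 0`.
* `Cone.free`: the involution `-1 : Y ↦ -Y` has no fixed point on `D_b`.
* `Cone.smooth`: the Jacobian criterion for the equations `Psi b` of the cone over `D_b`.
* `Cone.canonical`: the three `2`-forms `η_{k+1} ∧ η_{k+2}` (`η_i = (W_i dX_i - X_i dW_i) / Y_i`) have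
  no common zero on `D_b`.
-/

set_option autoImplicit false

namespace TripleBurger

open Complex

/-- `∂H/∂W_k` -/
def hW (μ : ℂ) (W X : Fin 3 → ℂ) : Fin 3 → ℂ :=
  ![-(μ * X 1 * W 2), X 0 * X 2, -(μ * X 1 * W 0)]

/-- `∂H/∂X_k` -/
def hX (μ : ℂ) (W X : Fin 3 → ℂ) : Fin 3 → ℂ :=
  ![X 2 * W 1, -(μ * W 0 * W 2), X 0 * W 1]

theorem Cone.base (p : Cone) : p.b ∈ BaseSet := p.2.1
theorem Cone.ne (p : Cone) (i : Fin 3) : p.W i ≠ 0 ∨ p.X i ≠ 0 := p.2.2.1 i
theorem Cone.curve (p : Cone) (i : Fin 3) : p.Y i ^ 2 = quartic p.b i (p.W i) (p.X i) :=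
  p.2.2.2.1 i
theorem Cone.rel (p : Cone) : p.X 0 * p.X 2 * p.W 1 = p.b 4 * p.X 1 * p.W 0 * p.W 2 :=
  p.2.2.2.2

/-- over `x = 0` and over `x = ∞` the coordinate `Y` does not vanish -/
theorem Cone.Y_ne_of_X (p : Cone) {i : Fin 3} (h : p.X i = 0) : p.Y i ≠ 0 := by
  intro h0
  have h1 := p.curve i
  rw [h0, h] at h1
  unfold quartic at h1
  have hW : p.W i ≠ 0 := by
    rcases p.ne i with h2 | h2
    · exact h2
    · exact absurd h h2
  have h2 : ∏ j : Fin 4, (0 - root p.b i j * p.W i) ≠ 0 := by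
    refine Finset.prod_ne_zero_iff.2 fun j _ => ?_
    rw [zero_sub, neg_ne_zero]
    exact mul_ne_zero (p.base.2.1 i j) hW
  apply h2
  rw [← h1]; ring

theorem Cone.Y_ne_of_W (p : Cone) {i : Fin 3} (h : p.W i = 0) : p.Y i ≠ 0 := by
  intro h0
  have h1 := p.curve i
  rw [h0, h] at h1
  unfold quartic at h1
  have hX : p.X i ≠ 0 := by
    rcases p.ne i with h2 | h2
    · exact absurd h h2
    · exact h2
  have h2 : ∏ j : Fin 4, (p.X i - root p.b i j * 0) ≠ 0 := by
    refine Finset.prod_ne_zero_iff.2 fun j _ => ?_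
    rw [mul_zero, sub_zero]
    exact hX
  apply h2
  rw [← h1]; ring

/-- a point with `Y_i = 0` lies over a branch point -/
theorem Cone.root_of_Y (p : Cone) {i : Fin 3} (h : p.Y i = 0) :
    p.W i ≠ 0 ∧ ∃ j, p.X i = root p.b i j * p.W i := by
  have hW : p.W i ≠ 0 := fun h0 => p.Y_ne_of_W h0 h
  refine ⟨hW, ?_⟩
  have h1 := p.curve i
  rw [h] at h1
  unfold quartic at h1
  have h2 : ∏ j : Fin 4, (p.X i - root p.b i j * p.W i) = 0 := by rw [← h1]; ring
  obtain ⟨j, _, hj⟩ := Finset.prod_eq_zero_iff.1 h2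
  exact ⟨j, sub_eq_zero.1 hj⟩

/-- no point lies over three branch points -/
theorem Cone.exists_Y_ne (p : Cone) : ∃ i, p.Y i ≠ 0 := by
  by_contra h
  push Not at h
  obtain ⟨w0, j, hj⟩ := p.root_of_Y (h 0)
  obtain ⟨w1, k, hk⟩ := p.root_of_Y (h 1)
  obtain ⟨w2, l, hl⟩ := p.root_of_Y (h 2)
  have hr := p.rel
  rw [hj, hk, hl] at hr
  have h3 : (root p.b 0 j * root p.b 2 l - p.b 4 * root p.b 1 k) * (p.W 0 * p.W 1 * p.W 2) = 0 := by
    linear_combination hr
  rcases mul_eq_zero.1 h3 with h4 | h4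
  · exact p.base.2.2.2 j k l (sub_eq_zero.1 h4)
  · exact mul_ne_zero (mul_ne_zero w0 w1) w2 h4

/-- **Key lemma.** -/
theorem Cone.key (p : Cone) :
    ∃ k, p.Y k ≠ 0 ∧ (hW (p.b 4) p.W p.X k ≠ 0 ∨ hX (p.b 4) p.W p.X k ≠ 0) := by
  have hμ : p.b 4 ≠ 0 := p.base.2.2.1
  by_cases c0 : hW (p.b 4) p.W p.X 0 = 0 ∧ hX (p.b 4) p.W p.X 0 = 0
  · obtain ⟨a, b⟩ := c0
    simp only [hW, hX, Matrix.cons_val_zero, neg_eq_zero, mul_eq_zero, hμ, false_or] at a b
    rcases a with a | a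
    · have b' : p.X 2 = 0 := by
        rcases b with b | b
        · exact b
        · exfalso; rcases p.ne 1 with h | h <;> contradiction
      by_cases w : p.W 0 = 0
      · have x0 : p.X 0 ≠ 0 := (p.ne 0).resolve_left (not_not.2 w)
        have w1 : p.W 1 ≠ 0 := (p.ne 1).resolve_right (not_not.2 a)
        exact ⟨2, p.Y_ne_of_X b', Or.inr (by simp [hX, x0, w1])⟩
      · have w2 : p.W 2 ≠ 0 := (p.ne 2).resolve_right (not_not.2 b')
        exact ⟨1, p.Y_ne_of_X a, Or.inr (by simp [hX, hμ, w, w2])⟩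
    · have b' : p.W 1 = 0 := by
        rcases b with b | b
        · exfalso; rcases p.ne 2 with h | h <;> contradiction
        · exact b
      by_cases w : p.W 0 = 0
      · have x0 : p.X 0 ≠ 0 := (p.ne 0).resolve_left (not_not.2 w)
        have x2 : p.X 2 ≠ 0 := (p.ne 2).resolve_left (not_not.2 a)
        exact ⟨1, p.Y_ne_of_W b', Or.inl (by simp [hW, x0, x2])⟩
      · have x1 : p.X 1 ≠ 0 := (p.ne 1).resolve_left (not_not.2 b')
        exact ⟨2, p.Y_ne_of_W a, Or.inl (by simp [hW, hμ, w, x1])⟩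
  by_cases c1 : hW (p.b 4) p.W p.X 1 = 0 ∧ hX (p.b 4) p.W p.X 1 = 0
  · obtain ⟨a, b⟩ := c1
    simp only [hW, hX, Matrix.cons_val_one, Matrix.cons_val_zero, neg_eq_zero, mul_eq_zero, hμ,
      false_or] at a b
    rcases a with a | a
    · have b' : p.W 2 = 0 := by
        rcases b with b | b
        · exfalso; rcases p.ne 0 with h | h <;> contradiction
        · exact b
      by_cases w : p.W 1 = 0
      · have x1 : p.X 1 ≠ 0 := (p.ne 1).resolve_left (not_not.2 w)
        have w0 : p.W 0 ≠ 0 := (p.ne 0).resolve_right (not_not.2 a)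
        exact ⟨2, p.Y_ne_of_W b', Or.inl (by simp [hW, hμ, w0, x1])⟩
      · have x2 : p.X 2 ≠ 0 := (p.ne 2).resolve_left (not_not.2 b')
        exact ⟨0, p.Y_ne_of_X a, Or.inr (by simp [hX, w, x2])⟩
    · have b' : p.W 0 = 0 := by
        rcases b with b | b
        · exact b
        · exfalso; rcases p.ne 2 with h | h <;> contradiction
      by_cases w : p.W 1 = 0
      · have x1 : p.X 1 ≠ 0 := (p.ne 1).resolve_left (not_not.2 w)
        have w2 : p.W 2 ≠ 0 := (p.ne 2).resolve_right (not_not.2 a)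
        exact ⟨0, p.Y_ne_of_W b', Or.inl (by simp [hW, hμ, w2, x1])⟩
      · have x0 : p.X 0 ≠ 0 := (p.ne 0).resolve_left (not_not.2 b')
        exact ⟨2, p.Y_ne_of_X a, Or.inr (by simp [hX, w, x0])⟩
  by_cases c2 : hW (p.b 4) p.W p.X 2 = 0 ∧ hX (p.b 4) p.W p.X 2 = 0
  · obtain ⟨a, b⟩ := c2
    simp only [hW, hX, Matrix.cons_val, neg_eq_zero, mul_eq_zero, hμ,
      false_or] at a b
    rcases a with a | a
    · have b' : p.X 0 = 0 := by
        rcases b with b | b
        · exact b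
        · exfalso; rcases p.ne 1 with h | h <;> contradiction
      by_cases w : p.W 2 = 0
      · have x2 : p.X 2 ≠ 0 := (p.ne 2).resolve_left (not_not.2 w)
        have w1 : p.W 1 ≠ 0 := (p.ne 1).resolve_right (not_not.2 a)
        exact ⟨0, p.Y_ne_of_X b', Or.inr (by simp [hX, x2, w1])⟩
      · have w0 : p.W 0 ≠ 0 := (p.ne 0).resolve_right (not_not.2 b')
        exact ⟨1, p.Y_ne_of_X a, Or.inr (by simp [hX, hμ, w, w0])⟩
    · have b' : p.W 1 = 0 := by
        rcases b with b | b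
        · exfalso; rcases p.ne 0 with h | h <;> contradiction
        · exact b
      by_cases w : p.W 2 = 0
      · have x2 : p.X 2 ≠ 0 := (p.ne 2).resolve_left (not_not.2 w)
        have x0 : p.X 0 ≠ 0 := (p.ne 0).resolve_left (not_not.2 a)
        exact ⟨1, p.Y_ne_of_W b', Or.inl (by simp [hW, x0, x2])⟩
      · have x1 : p.X 1 ≠ 0 := (p.ne 1).resolve_left (not_not.2 b')
        exact ⟨0, p.Y_ne_of_W a, Or.inl (by simp [hW, hμ, w, x1])⟩
  obtain ⟨k, hk⟩ := p.exists_Y_ne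
  refine ⟨k, hk, ?_⟩
  by_contra h
  push Not at h
  fin_cases k
  · exact c0 h
  · exact c1 h
  · exact c2 h

/-- **`-1` acts freely** on `D_b`: a point and its image under `Y ↦ -Y` are never equal up to
rescaling. -/
theorem Cone.free (p : Cone) : ¬ ∃ c : Fin 3 → ℂ, (∀ i, c i ≠ 0) ∧
    ∀ i, p.W i = c i * p.W i ∧ p.X i = c i * p.X i ∧ -p.Y i = c i ^ 2 * p.Y i := by
  rintro ⟨c, _, h⟩
  obtain ⟨k, hk⟩ := p.exists_Y_ne
  obtain ⟨h1, h2, h3⟩ := h k
  have hc1 : c k = 1 := by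
    rcases p.ne k with h0 | h0
    · have : (c k - 1) * p.W k = 0 := by linear_combination -h1
      rcases mul_eq_zero.1 this with h4 | h4
      · exact sub_eq_zero.1 h4
      · exact absurd h4 h0
    · have : (c k - 1) * p.X k = 0 := by linear_combination -h2
      rcases mul_eq_zero.1 this with h4 | h4
      · exact sub_eq_zero.1 h4
      · exact absurd h4 h0
  rw [hc1] at h3
  apply hk
  have : (2 : ℂ) * p.Y k = 0 := by linear_combination -h3
  exact (mul_eq_zero.1 this).resolve_left two_ne_zero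


/-! ### Smoothness: the Jacobian criterion -/

/-- partial derivative of the quartic form with respect to `X` -/
noncomputable def qX (b : Param) (i : Fin 3) (W X : ℂ) : ℂ :=
  ∑ j : Fin 4, ∏ l ∈ Finset.univ.erase j, (X - root b i l * W)

/-- partial derivative of the quartic form with respect to `W` -/
noncomputable def qW (b : Param) (i : Fin 3) (W X : ℂ) : ℂ :=
  ∑ j : Fin 4, (∏ l ∈ Finset.univ.erase j, (X - root b i l * W)) * (-root b i j)

/-- The derivative of `(W, X) ↦ quartic b i W X`. -/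
theorem hasFDerivAt_quartic (b : Param) (i : Fin 3) (z : ℂ × ℂ) :
    HasFDerivAt (fun z : ℂ × ℂ => quartic b i z.1 z.2)
      (qW b i z.1 z.2 • ContinuousLinearMap.fst ℂ ℂ ℂ
        + qX b i z.1 z.2 • ContinuousLinearMap.snd ℂ ℂ ℂ) z := by
  unfold quartic qW qX
  have h : ∀ j : Fin 4, HasFDerivAt (fun z : ℂ × ℂ => z.2 - root b i j * z.1)
      (ContinuousLinearMap.snd ℂ ℂ ℂ - root b i j • ContinuousLinearMap.fst ℂ ℂ ℂ) z := by
    intro j
    exact (hasFDerivAt_snd).sub ((hasFDerivAt_fst).const_mul _)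
  have h2 := HasFDerivAt.finsetProd (u := Finset.univ) (fun j _ => h j)
  refine h2.congr_fderiv ?_
  ext <;> simp

/-- Euler's identity -/
theorem euler_quartic (b : Param) (i : Fin 3) (W X : ℂ) :
    W * qW b i W X + X * qX b i W X = 4 * quartic b i W X := by
  unfold qW qX quartic
  rw [Finset.mul_sum, Finset.mul_sum, ← Finset.sum_add_distrib]
  have h : ∀ j : Fin 4, W * ((∏ l ∈ Finset.univ.erase j, (X - root b i l * W)) * (-root b i j))
      + X * ∏ l ∈ Finset.univ.erase j, (X - root b i l * W)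
      = ∏ l : Fin 4, (X - root b i l * W) := by
    intro j
    rw [← Finset.mul_prod_erase Finset.univ _ (Finset.mem_univ j)]
    ring
  rw [Finset.sum_congr rfl (fun j _ => h j)]
  simp

/-- the coordinates `(W, X, Y)` -/
abbrev Amb3 : Type := (Fin 3 → ℂ) × (Fin 3 → ℂ) × (Fin 3 → ℂ)

/-- the equations of the cone over `D_b` -/
def Psi (b : Param) (v : Amb3) : (Fin 3 → ℂ) × ℂ :=
  (fun i => v.2.2 i ^ 2 - quartic b i (v.1 i) (v.2.1 i),
    v.2.1 0 * v.2.1 2 * v.1 1 - b 4 * v.2.1 1 * v.1 0 * v.1 2)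

/-- the differential of the `i`-th curve equation -/
noncomputable def dG (b : Param) (i : Fin 3) (p v : Amb3) : ℂ :=
  2 * p.2.2 i * v.2.2 i - (qW b i (p.1 i) (p.2.1 i) * v.1 i + qX b i (p.1 i) (p.2.1 i) * v.2.1 i)

/-- the differential of `H = X₀ X₂ W₁ - μ X₁ W₀ W₂` -/
def dH (μ : ℂ) (p v : Amb3) : ℂ := ∑ k, (hW μ p.1 p.2.1 k * v.1 k + hX μ p.1 p.2.1 k * v.2.1 k)

theorem fderiv_Psi (b : Param) (p v : Amb3) :
    DifferentiableAt ℂ (Psi b) p ∧
    fderiv ℂ (Psi b) p v = (fun i => dG b i p v, dH (b 4) p v) := by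
  have hW : ∀ i : Fin 3, HasFDerivAt (fun v : Amb3 => v.1 i)
      ((ContinuousLinearMap.proj i).comp (ContinuousLinearMap.fst ℂ (Fin 3 → ℂ)
        ((Fin 3 → ℂ) × (Fin 3 → ℂ)))) p := fun i =>
    ((ContinuousLinearMap.proj (R := ℂ) i).comp (ContinuousLinearMap.fst ℂ (Fin 3 → ℂ)
        ((Fin 3 → ℂ) × (Fin 3 → ℂ)))).hasFDerivAt
  have hX : ∀ i : Fin 3, HasFDerivAt (fun v : Amb3 => v.2.1 i)
      ((ContinuousLinearMap.proj i).comp ((ContinuousLinearMap.fst ℂ (Fin 3 → ℂ)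
        (Fin 3 → ℂ)).comp (ContinuousLinearMap.snd ℂ (Fin 3 → ℂ)
        ((Fin 3 → ℂ) × (Fin 3 → ℂ))))) p := fun i =>
    ((ContinuousLinearMap.proj (R := ℂ) i).comp ((ContinuousLinearMap.fst ℂ (Fin 3 → ℂ)
        (Fin 3 → ℂ)).comp (ContinuousLinearMap.snd ℂ (Fin 3 → ℂ)
        ((Fin 3 → ℂ) × (Fin 3 → ℂ))))).hasFDerivAt
  have hY : ∀ i : Fin 3, HasFDerivAt (fun v : Amb3 => v.2.2 i)
      ((ContinuousLinearMap.proj i).comp ((ContinuousLinearMap.snd ℂ (Fin 3 → ℂ)
        (Fin 3 → ℂ)).comp (ContinuousLinearMap.snd ℂ (Fin 3 → ℂ)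
        ((Fin 3 → ℂ) × (Fin 3 → ℂ))))) p := fun i =>
    ((ContinuousLinearMap.proj (R := ℂ) i).comp ((ContinuousLinearMap.snd ℂ (Fin 3 → ℂ)
        (Fin 3 → ℂ)).comp (ContinuousLinearMap.snd ℂ (Fin 3 → ℂ)
        ((Fin 3 → ℂ) × (Fin 3 → ℂ))))).hasFDerivAt
  have hq : ∀ i : Fin 3, HasFDerivAt (fun v : Amb3 => quartic b i (v.1 i) (v.2.1 i)) _ p :=
    fun i => HasFDerivAt.comp (g := fun z : ℂ × ℂ => quartic b i z.1 z.2) p
      (hasFDerivAt_quartic b i (p.1 i, p.2.1 i)) ((hW i).prodMk (hX i))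
  have h1 : HasFDerivAt (fun v : Amb3 => (fun i => v.2.2 i ^ 2 - quartic b i (v.1 i) (v.2.1 i))) _ p :=
    hasFDerivAt_pi.2 fun i => ((hY i).pow 2).sub (hq i)
  have h2 : HasFDerivAt (fun v : Amb3 => v.2.1 0 * v.2.1 2 * v.1 1
      - b 4 * v.2.1 1 * v.1 0 * v.1 2) _ p :=
    (((hX 0).mul (hX 2)).mul (hW 1)).sub ((((hX 1).const_mul (b 4)).mul (hW 0)).mul (hW 2))
  have h3 : HasFDerivAt (Psi b) _ p := h1.prodMk h2
  refine ⟨h3.differentiableAt, ?_⟩
  rw [h3.fderiv]
  refine Prod.ext ?_ ?_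
  · funext i
    simp [dG]
  · simp [dH, Fin.sum_univ_three, TripleBurger.hW, TripleBurger.hX]
    ring

/-- at a simple root the partial derivative in `X` does not vanish -/
theorem Cone.qX_ne (p : Cone) {i : Fin 3} (h : p.Y i = 0) : qX p.b i (p.W i) (p.X i) ≠ 0 := by
  obtain ⟨hw, j, hj⟩ := p.root_of_Y h
  unfold qX
  rw [Finset.sum_eq_single j]
  · refine Finset.prod_ne_zero_iff.2 fun l hl => ?_
    rw [hj, ← sub_mul]
    refine mul_ne_zero (sub_ne_zero.2 fun h0 => ?_) hw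
    exact Finset.ne_of_mem_erase hl (p.base.1 i h0).symm
  · intro l _ hl
    refine Finset.prod_eq_zero (Finset.mem_erase.2 ⟨hl.symm, Finset.mem_univ j⟩) ?_
    rw [hj]; ring
  · intro h0; exact absurd (Finset.mem_univ j) h0

/-- the coordinate vector of a point -/
def Cone.vec (p : Cone) : Amb3 := (p.W, p.X, p.Y)

/-- a vector supported in the `i`-th block -/
def blk (i : Fin 3) (a b y : ℂ) : Amb3 := (Pi.single i a, Pi.single i b, Pi.single i y)

theorem dG_blk_self (b : Param) (i : Fin 3) (p : Amb3) (u v y : ℂ) :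
    dG b i p (blk i u v y) = 2 * p.2.2 i * y -
      (qW b i (p.1 i) (p.2.1 i) * u + qX b i (p.1 i) (p.2.1 i) * v) := by
  simp [dG, blk]

theorem dG_blk_ne (b : Param) {i k : Fin 3} (h : i ≠ k) (p : Amb3) (u v y : ℂ) :
    dG b i p (blk k u v y) = 0 := by
  simp [dG, blk, Pi.single_eq_of_ne h]

theorem dH_blk (μ : ℂ) (k : Fin 3) (p : Amb3) (u v y : ℂ) :
    dH μ p (blk k u v y) = hW μ p.1 p.2.1 k * u + hX μ p.1 p.2.1 k * v := by
  unfold dH
  rw [Finset.sum_eq_single k]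
  · simp [blk]
  · intro l _ hl
    simp [blk, Pi.single_eq_of_ne hl]
  · intro h0; exact absurd (Finset.mem_univ k) h0

theorem dG_add (b : Param) (i : Fin 3) (p u v : Amb3) :
    dG b i p (u + v) = dG b i p u + dG b i p v := by
  simp [dG]; ring

theorem dG_smul (b : Param) (i : Fin 3) (p : Amb3) (c : ℂ) (v : Amb3) :
    dG b i p (c • v) = c * dG b i p v := by
  simp [dG]; ring

theorem dH_add (μ : ℂ) (p u v : Amb3) : dH μ p (u + v) = dH μ p u + dH μ p v := by
  simp only [dH, ← Finset.sum_add_distrib]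
  refine Finset.sum_congr rfl fun k _ => ?_
  simp; ring

theorem dH_smul (μ : ℂ) (p : Amb3) (c : ℂ) (v : Amb3) : dH μ p (c • v) = c * dH μ p v := by
  simp only [dH, Finset.mul_sum]
  refine Finset.sum_congr rfl fun k _ => ?_
  simp; ring

/-- in every block the differential of the curve equation is non-zero -/
theorem Cone.blk_surj (p : Cone) (i : Fin 3) (c : ℂ) :
    ∃ v : Amb3, (∃ x y z, v = blk i x y z) ∧ dG p.b i p.vec v = c := by
  by_cases h : p.Y i = 0
  · have h1 := p.qX_ne h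
    refine ⟨blk i 0 (-c / qX p.b i (p.W i) (p.X i)) 0, ⟨_, _, _, rfl⟩, ?_⟩
    rw [dG_blk_self]
    show 2 * p.Y i * 0 - (qW p.b i (p.W i) (p.X i) * 0 + qX p.b i (p.W i) (p.X i) *
      (-c / qX p.b i (p.W i) (p.X i))) = c
    field_simp
    ring
  · refine ⟨blk i 0 0 (c / (2 * p.Y i)), ⟨_, _, _, rfl⟩, ?_⟩
    rw [dG_blk_self]
    show 2 * p.Y i * (c / (2 * p.Y i)) - (qW p.b i (p.W i) (p.X i) * 0 +
      qX p.b i (p.W i) (p.X i) * 0) = c
    field_simp
    ring

/-- **Smoothness (Jacobian criterion).** At every point of the cone over `D_b` the four equations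
have linearly independent differentials. -/
theorem Cone.smooth (p : Cone) : Function.Surjective (fderiv ℂ (Psi p.b) p.vec) := by
  obtain ⟨k, hk, hk'⟩ := p.key
  rintro ⟨c, d⟩
  -- first solve the curve equations in the blocks
  choose v hv1 hv2 using p.blk_surj
  -- a vector with `dG = 0` in all blocks and `dH = 1`
  obtain ⟨a, e, hae⟩ : ∃ a e : ℂ, hW (p.b 4) p.W p.X k * a + hX (p.b 4) p.W p.X k * e = 1 := by
    rcases hk' with h | h
    · exact ⟨(hW (p.b 4) p.W p.X k)⁻¹, 0, by rw [mul_inv_cancel₀ h]; ring⟩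
    · exact ⟨0, (hX (p.b 4) p.W p.X k)⁻¹, by rw [mul_inv_cancel₀ h]; ring⟩
  obtain ⟨w, hw0, hw1⟩ : ∃ w : Amb3, (∀ i, dG p.b i p.vec w = 0) ∧ dH (p.b 4) p.vec w = 1 := by
    refine ⟨blk k a e ((qW p.b k (p.W k) (p.X k) * a + qX p.b k (p.W k) (p.X k) * e)
      / (2 * p.Y k)), fun i => ?_, ?_⟩
    · by_cases hi : i = k
      · subst hi
        rw [dG_blk_self]
        show 2 * p.Y i * _ - (qW p.b i (p.W i) (p.X i) * a + qX p.b i (p.W i) (p.X i) * e) = 0
        field_simp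
        ring
      · exact dG_blk_ne _ hi _ _ _ _
    · rw [dH_blk]; exact hae
  have hblk : ∀ i j, dG p.b i p.vec (v j (c j)) = if i = j then c i else 0 := by
    intro i j
    by_cases hij : i = j
    · subst hij; rw [if_pos rfl]; exact hv2 i (c i)
    · rw [if_neg hij]
      obtain ⟨x, y, z, h⟩ := hv1 j (c j)
      rw [h]; exact dG_blk_ne _ hij _ _ _ _
  refine ⟨(v 0 (c 0) + v 1 (c 1) + v 2 (c 2)) +
    (d - dH (p.b 4) p.vec (v 0 (c 0) + v 1 (c 1) + v 2 (c 2))) • w, ?_⟩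
  rw [(fderiv_Psi p.b p.vec _).2]
  refine Prod.ext ?_ ?_
  · funext i
    show dG p.b i p.vec _ = c i
    rw [dG_add, dG_smul, hw0 i, mul_zero, add_zero, dG_add, dG_add, hblk, hblk, hblk]
    fin_cases i <;> simp
  · show dH (p.b 4) p.vec _ = d
    rw [dH_add, dH_smul, hw1]
    ring

/-! ### The canonical forms have no common zero -/

/-- `η_i(v) = t` for the invariant form `η_i = (W_i dX_i - X_i dW_i) / Y_i` of `E_i` and a tangent
vector `v` (the three equations are equivalent descriptions at the points where they make sense; at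
every point of the curve one of the numbers `Y_i`, `∂q/∂X`, `∂q/∂W` is non-zero, so `t` is unique). -/
def Eta (p : Cone) (i : Fin 3) (v : Amb3) (t : ℂ) : Prop :=
  p.W i * v.2.1 i - p.X i * v.1 i = t * p.Y i ∧
  2 * (p.W i * v.2.2 i - 2 * p.Y i * v.1 i) = t * qX p.b i (p.W i) (p.X i) ∧
  2 * (p.X i * v.2.2 i - 2 * p.Y i * v.2.1 i) = -t * qW p.b i (p.W i) (p.X i)

theorem Eta.unique {p : Cone} {i : Fin 3} {v : Amb3} {t t' : ℂ} (h : Eta p i v t)
    (h' : Eta p i v t') : t = t' := by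
  by_cases hY : p.Y i = 0
  · have := p.qX_ne hY
    exact mul_right_cancel₀ this (h.2.1.symm.trans h'.2.1)
  · exact mul_right_cancel₀ hY (h.1.symm.trans h'.1)

/-- the dual vector field of `η_i` at `p` -/
theorem Cone.exists_xi (p : Cone) (i : Fin 3) : ∃ a b y : ℂ,
    p.W i * b - p.X i * a = p.Y i ∧
    2 * (p.W i * y - 2 * p.Y i * a) = qX p.b i (p.W i) (p.X i) ∧
    2 * (p.X i * y - 2 * p.Y i * b) = -qW p.b i (p.W i) (p.X i) ∧
    2 * p.Y i * y - (qW p.b i (p.W i) (p.X i) * a + qX p.b i (p.W i) (p.X i) * b) = 0 := by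
  have e := euler_quartic p.b i (p.W i) (p.X i)
  rw [← p.curve i] at e
  rcases p.ne i with h | h
  · refine ⟨0, p.Y i / p.W i, qX p.b i (p.W i) (p.X i) / (2 * p.W i), ?_, ?_, ?_, ?_⟩
    · field_simp; ring
    · field_simp; ring
    · field_simp; linear_combination e
    · field_simp; ring
  · refine ⟨-(p.Y i / p.X i), 0, -(qW p.b i (p.W i) (p.X i)) / (2 * p.X i), ?_, ?_, ?_, ?_⟩
    · field_simp; ring
    · field_simp; linear_combination -e
    · field_simp; ring
    · field_simp; ring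

theorem Eta.add {p : Cone} {i : Fin 3} {u v : Amb3} {t t' : ℂ} (h : Eta p i u t)
    (h' : Eta p i v t') : Eta p i (u + v) (t + t') := by
  obtain ⟨h1, h2, h3⟩ := h
  obtain ⟨k1, k2, k3⟩ := h'
  refine ⟨?_, ?_, ?_⟩
  · simp only [Prod.fst_add, Prod.snd_add, Pi.add_apply]; linear_combination h1 + k1
  · simp only [Prod.fst_add, Prod.snd_add, Pi.add_apply]; linear_combination h2 + k2
  · simp only [Prod.fst_add, Prod.snd_add, Pi.add_apply]; linear_combination h3 + k3

theorem Eta.smul {p : Cone} {i : Fin 3} {u : Amb3} {t : ℂ} (c : ℂ) (h : Eta p i u t) :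
    Eta p i (c • u) (c * t) := by
  obtain ⟨h1, h2, h3⟩ := h
  refine ⟨?_, ?_, ?_⟩
  · simp only [Prod.smul_fst, Prod.smul_snd, Pi.smul_apply, smul_eq_mul]
    linear_combination c * h1
  · simp only [Prod.smul_fst, Prod.smul_snd, Pi.smul_apply, smul_eq_mul]
    linear_combination c * h2
  · simp only [Prod.smul_fst, Prod.smul_snd, Pi.smul_apply, smul_eq_mul]
    linear_combination c * h3

theorem Eta.blk_ne (p : Cone) {i k : Fin 3} (h : i ≠ k) (u v y : ℂ) : Eta p i (blk k u v y) 0 := by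
  refine ⟨?_, ?_, ?_⟩ <;> simp [blk, Pi.single_eq_of_ne h]

/-- **The canonical forms have no common zero.** At every point `p` of `D_b` there is `k` such that the
`2`-form `η_{k+1} ∧ η_{k+2}` does not vanish: there are tangent vectors `u`, `v` on which `η_{k+1}`,
`η_{k+2}` take the values `(1, 0)`, `(0, 1)`. -/
theorem Cone.canonical (p : Cone) : ∃ (k : Fin 3) (u v : Amb3),
    fderiv ℂ (Psi p.b) p.vec u = 0 ∧ fderiv ℂ (Psi p.b) p.vec v = 0 ∧
    Eta p (k + 1) u 1 ∧ Eta p (k + 2) u 0 ∧ Eta p (k + 1) v 0 ∧ Eta p (k + 2) v 1 := by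
  obtain ⟨k, hk, hk'⟩ := p.key
  choose a b y h1 h2 h3 h4 using p.exists_xi
  -- `H` is linear in every block
  have hlin : hW (p.b 4) p.W p.X k * p.W k + hX (p.b 4) p.W p.X k * p.X k = 0 := by
    have hr := p.rel
    fin_cases k
    · simp [hW, hX]; linear_combination hr
    · simp [hW, hX]; linear_combination hr
    · simp [hW, hX]; linear_combination hr
  set F : Fin 3 → ℂ := fun i => hW (p.b 4) p.W p.X i * a i + hX (p.b 4) p.W p.X i * b i with hF
  have hFk : F k ≠ 0 := by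
    intro h0
    have h0' : hW (p.b 4) p.W p.X k * a k + hX (p.b 4) p.W p.X k * b k = 0 := h0
    have hd := h1 k
    have e1 : hW (p.b 4) p.W p.X k * p.Y k = 0 := by
      linear_combination -(hW (p.b 4) p.W p.X k) * hd + b k * hlin - p.X k * h0'
    have e2 : hX (p.b 4) p.W p.X k * p.Y k = 0 := by
      linear_combination -(hX (p.b 4) p.W p.X k) * hd - a k * hlin + p.W k * h0'
    rcases hk' with h | h
    · exact (mul_ne_zero h hk) e1
    · exact (mul_ne_zero h hk) e2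
  set ξ : Fin 3 → Amb3 := fun i => blk i (a i) (b i) (y i) with hξ
  have g : ∀ i j, dG p.b i p.vec (ξ j) = 0 := by
    intro i j
    by_cases hij : i = j
    · subst hij
      show dG p.b i p.vec (blk i (a i) (b i) (y i)) = 0
      rw [dG_blk_self]; exact h4 i
    · exact dG_blk_ne _ hij _ _ _ _
  have gH : ∀ j, dH (p.b 4) p.vec (ξ j) = F j := fun j => dH_blk _ _ _ _ _ _
  have e1 : ∀ i, Eta p i (ξ i) 1 := by
    intro i
    refine ⟨?_, ?_, ?_⟩
    · simp only [hξ, blk, Pi.single_eq_same]; linear_combination h1 i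
    · simp only [hξ, blk, Pi.single_eq_same]; linear_combination h2 i
    · simp only [hξ, blk, Pi.single_eq_same]; linear_combination h3 i
  have e0 : ∀ i j, i ≠ j → Eta p i (ξ j) 0 := fun i j h => Eta.blk_ne p h _ _ _
  have n1 : k + 1 ≠ k := by fin_cases k <;> decide
  have n2 : k + 2 ≠ k := by fin_cases k <;> decide
  have n3 : k + 1 ≠ k + 2 := by fin_cases k <;> decide
  have T : ∀ j, fderiv ℂ (Psi p.b) p.vec (ξ j + (-(F j / F k)) • ξ k) = 0 := by
    intro j
    rw [(fderiv_Psi p.b p.vec _).2]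
    refine Prod.ext ?_ ?_
    · funext i
      show dG p.b i p.vec _ = 0
      rw [dG_add, dG_smul, g, g]; ring
    · show dH (p.b 4) p.vec _ = 0
      rw [dH_add, dH_smul, gH, gH]
      field_simp
      ring
  refine ⟨k, ξ (k + 1) + (-(F (k + 1) / F k)) • ξ k, ξ (k + 2) + (-(F (k + 2) / F k)) • ξ k,
    T _, T _, ?_, ?_, ?_, ?_⟩
  · have := (e1 (k + 1)).add ((e0 (k + 1) k n1).smul (-(F (k + 1) / F k)))
    rwa [mul_zero, add_zero] at this
  · have := (e0 (k + 2) (k + 1) n3.symm).add ((e0 (k + 2) k n2).smul (-(F (k + 1) / F k)))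
    rwa [mul_zero, add_zero] at this
  · have := (e0 (k + 1) (k + 2) n3).add ((e0 (k + 1) k n1).smul (-(F (k + 2) / F k)))
    rwa [mul_zero, add_zero] at this
  · have := (e1 (k + 2)).add ((e0 (k + 2) k n2).smul (-(F (k + 2) / F k)))
    rwa [mul_zero, add_zero] at this

end TripleBurger
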